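import Pool.Agent.H18.Vari

set_option autoImplicit false

open Finset

namespace Pool.Agent.H18.POP

open Pool.Agent.H18

/-! ### Elementary inequalities -/

/-- Young's inequality, truncated. -/
lemma young (r u s : ℝ) (hr : 0 ≤ r) (hu : u ≤ s + 1) :
    r * u - Real.exp (u - 1) ≤ r * min (Real.log r) s + r := by
  rcases hr.eq_or_lt with h | h
  · rw [← h]
    have := Real.exp_pos (u - 1)
    simp only [zero_mul]
    linarith
  · rcases le_total (Real.log r) s with h1 | h1
    · rw [min_eq_left h1]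
      set w : ℝ := u - 1 - Real.log r with hw
      have e1 : Real.exp (u - 1) = r * Real.exp w := by
        have : u - 1 = Real.log r + w := by rw [hw]; ring
        rw [this, Real.exp_add, Real.exp_log h]
      have e2 : w + 1 ≤ Real.exp w := Real.add_one_le_exp w
      have e3 : r * (w + 1) ≤ r * Real.exp w := mul_le_mul_of_nonneg_left e2 hr
      rw [e1]
      have e4 : r * (w + 1) = r * u - r * Real.log r := by rw [hw]; ring
      linarith
    · rw [min_eq_right h1]
      have e1 : r * u ≤ r * (s + 1) := mul_le_mul_of_nonneg_left hu hr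
      have := Real.exp_pos (u - 1)
      linarith

/-- Pointwise convexity. -/
lemma jensen_pt {G : Type*} [Fintype G] (ν r : G → ℝ) (hν : ∀ v, 0 ≤ ν v) (hν1 : ∑ v, ν v = 1)
    (hr : ∀ v, 0 ≤ r v) (s : ℝ) :
    (∑ v, ν v * r v) * min (Real.log (∑ v, ν v * r v)) s
      ≤ ∑ v, ν v * (r v * min (Real.log (r v)) s + r v) := by
  set m : ℝ := ∑ v, ν v * r v with hm
  have hm0 : 0 ≤ m := Finset.sum_nonneg fun v _ => mul_nonneg (hν v) (hr v)
  rcases hm0.eq_or_lt with h | h
  · have h1 : ∀ v ∈ Finset.univ, ν v * r v = 0 := by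
      apply (Finset.sum_eq_zero_iff_of_nonneg fun v _ => mul_nonneg (hν v) (hr v)).mp
      rw [← hm, ← h]
    rw [← h, zero_mul]
    refine le_of_eq (Eq.symm (Finset.sum_eq_zero fun v hv => ?_))
    have h2 := h1 v hv
    have : ν v * (r v * min (Real.log (r v)) s + r v)
        = (ν v * r v) * (min (Real.log (r v)) s + 1) := by ring
    rw [this, h2, zero_mul]
  · set u : ℝ := min (Real.log m) s + 1 with hu
    have hus : u ≤ s + 1 := by rw [hu]; linarith [min_le_right (Real.log m) s]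
    have hexp : Real.exp (u - 1) ≤ m := by
      have h1 : u - 1 ≤ Real.log m := by rw [hu]; linarith [min_le_left (Real.log m) s]
      calc Real.exp (u - 1) ≤ Real.exp (Real.log m) := Real.exp_le_exp.mpr h1
        _ = m := Real.exp_log h
    have h2 : ∑ v, ν v * (r v * u - Real.exp (u - 1))
        ≤ ∑ v, ν v * (r v * min (Real.log (r v)) s + r v) :=
      Finset.sum_le_sum fun v _ => mul_le_mul_of_nonneg_left (young _ _ _ (hr v) hus) (hν v)
    have h3 : ∑ v, ν v * (r v * u - Real.exp (u - 1)) = m * u - Real.exp (u - 1) := by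
      simp_rw [mul_sub]
      rw [Finset.sum_sub_distrib, ← Finset.sum_mul, hν1, one_mul, hm, Finset.sum_mul]
      congr 1
      exact Finset.sum_congr rfl fun v _ => by ring
    have h4 : m * min (Real.log m) s = m * u - m := by rw [hu]; ring
    rw [h4]; linarith

/-- Gibbs' inequality, truncated. -/
lemma gibbs_pt (m f t K : ℝ) (hm : 0 ≤ m) (hf : f ≤ 2 * t) :
    m * f ≤ m * (min (Real.log m) (2 * t + K) - K) + Real.exp (K + f) := by
  have hpos := Real.exp_pos (K + f)
  rcases hm.eq_or_lt with h | h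
  · rw [← h]; simp only [zero_mul]; linarith
  · rcases le_total (Real.log m) (2 * t + K) with h1 | h1
    · rw [min_eq_left h1]
      set v : ℝ := f + K - Real.log m with hv
      have e1 : Real.exp (K + f) = m * Real.exp v := by
        rw [hv, Real.exp_sub, Real.exp_log h, add_comm]; field_simp
      have e2 : v ≤ Real.exp v := (lt_add_one v).le.trans (Real.add_one_le_exp v)
      have e3 : m * v ≤ m * Real.exp v := mul_le_mul_of_nonneg_left e2 hm
      rw [e1]
      have e4 : m * v = m * f - m * (Real.log m - K) := by rw [hv]; ring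
      linarith
    · rw [min_eq_right h1]
      have e1 : m * f ≤ m * (2 * t) := mul_le_mul_of_nonneg_left hf hm
      have e2 : m * (2 * t + K - K) = m * (2 * t) := by ring
      rw [e2]; linarith

/-! ### The truncated logarithm -/

/-- Logarithm of `r` cut to `[e^{-b}, e^t]`. -/
noncomputable def cl (b t r : ℝ) : ℝ := Real.log (max (Real.exp (-b)) (min r (Real.exp t)))

lemma cl_arg_pos (b t r : ℝ) : 0 < max (Real.exp (-b)) (min r (Real.exp t)) :=
  lt_of_lt_of_le (Real.exp_pos _) (le_max_left _ _)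

lemma exp_cl (b t r : ℝ) : Real.exp (cl b t r) = max (Real.exp (-b)) (min r (Real.exp t)) :=
  Real.exp_log (cl_arg_pos b t r)

lemma neg_le_cl (b t r : ℝ) : -b ≤ cl b t r := by
  rw [cl, Real.le_log_iff_exp_le (cl_arg_pos b t r)]
  exact le_max_left _ _

lemma cl_le (b t r : ℝ) (h : -b ≤ t) : cl b t r ≤ t := by
  rw [cl, Real.log_le_iff_le_exp (cl_arg_pos b t r)]
  exact max_le (Real.exp_le_exp.mpr h) (min_le_right _ _)

lemma exp_cl_le (b t r : ℝ) (hr : 0 ≤ r) : Real.exp (cl b t r) ≤ r + Real.exp (-b) := by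
  rw [exp_cl]
  have := Real.exp_pos (-b)
  refine max_le (by linarith) ((min_le_left _ _).trans (by linarith))

lemma exp_cl_le' (b t r : ℝ) (h : -b ≤ t) : Real.exp (cl b t r) ≤ Real.exp t :=
  Real.exp_le_exp.mpr (cl_le b t r h)

lemma min_log_le_cl (b t r : ℝ) (hr : 0 < r) : min (Real.log r) t ≤ cl b t r := by
  rw [cl, Real.le_log_iff_exp_le (cl_arg_pos b t r)]
  refine le_trans ?_ (le_max_right _ _)
  refine le_min ?_ (Real.exp_le_exp.mpr (min_le_right _ _))
  calc Real.exp (min (Real.log r) t) ≤ Real.exp (Real.log r) :=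
        Real.exp_le_exp.mpr (min_le_left _ _)
    _ = r := Real.exp_log hr

/-! ### The function `psi` -/

section

variable {G : Type*} [AddCommGroup G] [Fintype G]

/-- Truncated relative entropy. -/
noncomputable def psi (M : ℝ) (P : G → ℝ) (t : ℝ) : ℝ := ∑ y, P y * min (Real.log (M * P y)) t

omit [AddCommGroup G] in
lemma psi_le (M : ℝ) (P : G → ℝ) (hP : IsPr P) (t L : ℝ) (hL : ∀ y, P y ≠ 0 →
    Real.log (M * P y) ≤ L) : psi M P t ≤ L := by
  unfold psi
  calc ∑ y, P y * min (Real.log (M * P y)) t ≤ ∑ y, P y * L := by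
        refine Finset.sum_le_sum fun y _ => ?_
        by_cases h : P y = 0
        · rw [h, zero_mul, zero_mul]
        · exact mul_le_mul_of_nonneg_left ((min_le_left _ _).trans (hL y h)) (hP.1 y)
    _ = L := by rw [← Finset.sum_mul, hP.2, one_mul]

lemma neg_one_le_psi (M : ℝ) (hM : M = Fintype.card G) (P : G → ℝ) (hP : IsPr P) :
    -1 ≤ psi M P 0 := by
  have hM0 : 0 < M := by
    rw [hM]
    have : Nonempty G := ⟨0⟩
    exact_mod_cast Fintype.card_pos
  unfold psi
  have h1 : ∀ y, -(1 / M) ≤ P y * min (Real.log (M * P y)) 0 := by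
    intro y
    rcases (hP.1 y).eq_or_lt with h | h
    · rw [← h, zero_mul]
      have : 0 < 1 / M := by positivity
      linarith
    · have hr : 0 < M * P y := by positivity
      rcases le_total (Real.log (M * P y)) 0 with h1 | h1
      · rw [min_eq_left h1]
        have e1 : 1 - (M * P y)⁻¹ ≤ Real.log (M * P y) := Real.one_sub_inv_le_log_of_pos hr
        have e2 : P y * (1 - (M * P y)⁻¹) ≤ P y * Real.log (M * P y) :=
          mul_le_mul_of_nonneg_left e1 h.le
        have e3 : P y * (1 - (M * P y)⁻¹) = P y - 1 / M := by field_simp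
        linarith
      · rw [min_eq_right h1, mul_zero]
        have : 0 < 1 / M := by positivity
        linarith
  calc (-1 : ℝ) = ∑ _y : G, -(1 / M) := by
        rw [Finset.sum_const, nsmul_eq_mul, Finset.card_univ, ← hM]; field_simp
    _ ≤ _ := Finset.sum_le_sum fun y _ => h1 y

/-- Smoothing does not increase the truncated relative entropy by more than 1. -/
lemma psi_cnv (M : ℝ) (hM : M = Fintype.card G) (P ν : G → ℝ) (hP : IsPr P) (hν : IsPr ν)
    (s : ℝ) : psi M (cnv ν P) s ≤ psi M P s + 1 := by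
  have hM0 : 0 < M := by
    rw [hM]
    have : Nonempty G := ⟨0⟩
    exact_mod_cast Fintype.card_pos
  have h1 : ∀ y, M * (cnv ν P y * min (Real.log (M * cnv ν P y)) s)
      ≤ ∑ v, ν v * (M * P (y - v) * min (Real.log (M * P (y - v))) s + M * P (y - v)) := by
    intro y
    have h2 := jensen_pt ν (fun v => M * P (y - v)) hν.1 hν.2
      (fun v => mul_nonneg hM0.le (hP.1 _)) s
    have h3 : ∑ v, ν v * (M * P (y - v)) = M * cnv ν P y := by
      unfold cnv
      rw [Finset.mul_sum]
      exact Finset.sum_congr rfl fun v _ => by ring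
    simp only [h3] at h2
    rw [← mul_assoc]
    exact h2
  have h4 := Finset.sum_le_sum fun y (_ : y ∈ Finset.univ) => h1 y
  rw [← Finset.mul_sum, Finset.sum_comm] at h4
  have h5 : ∀ v, ∑ y, ν v * (M * P (y - v) * min (Real.log (M * P (y - v))) s + M * P (y - v))
      = ν v * (M * (psi M P s + 1)) := by
    intro v
    rw [← Finset.mul_sum, sum_sub_right
      (fun y => M * P y * min (Real.log (M * P y)) s + M * P y) v]
    congr 1
    unfold psi
    rw [Finset.sum_add_distrib, ← Finset.mul_sum, hP.2, mul_add, mul_one, Finset.mul_sum]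
    congr 1
    exact Finset.sum_congr rfl fun y _ => by ring
  simp_rw [h5] at h4
  rw [← Finset.sum_mul, hν.2, one_mul] at h4
  exact le_of_mul_le_mul_left h4 hM0

/-- The main inequality. -/
theorem main_ineq (M : ℝ) (hM : M = Fintype.card G) (P ν : G → ℝ) (hP : IsPr P) (hν : IsPr ν)
    (b t K : ℝ) (hbt : -b ≤ t) (x : G) :
    ∑ y, cnv ν P y * cl b t (M * P y) + ∑ y, cnv ν P y * cl b t (M * P (x - y))
        + K - psi M P (2 * t + K) - 1
      ≤ Real.exp K * (M * ∑ y, P y * P (x - y) + Real.exp (-b) + Real.exp (t - b)) := by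
  have hM0 : 0 < M := by
    rw [hM]
    have : Nonempty G := ⟨0⟩
    exact_mod_cast Fintype.card_pos
  set μ := cnv ν P with hμ
  have hμP : IsPr μ := hν.cnv hP
  set f : G → ℝ := fun y => cl b t (M * P y) + cl b t (M * P (x - y)) with hf
  have hf2 : ∀ y, f y ≤ 2 * t := fun y => by
    have h1 := cl_le b t (M * P y) hbt
    have h2 := cl_le b t (M * P (x - y)) hbt
    simp only [hf]; linarith
  -- the exponential sum
  have hexp : ∀ y, Real.exp (f y) ≤ (M * P y) * (M * P (x - y)) + M * P y * Real.exp (-b)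
      + Real.exp (t - b) := by
    intro y
    have hr1 : 0 ≤ M * P y := mul_nonneg hM0.le (hP.1 _)
    have hr2 : 0 ≤ M * P (x - y) := mul_nonneg hM0.le (hP.1 _)
    simp only [hf]
    rw [Real.exp_add]
    have e1 := exp_cl_le b t _ hr1
    have e2 := exp_cl_le b t _ hr2
    have e3 := exp_cl_le' b t (M * P (x - y)) hbt
    have e4 := Real.exp_pos (cl b t (M * P (x - y)))
    have e5 := Real.exp_pos (-b)
    calc Real.exp (cl b t (M * P y)) * Real.exp (cl b t (M * P (x - y)))
        ≤ (M * P y + Real.exp (-b)) * Real.exp (cl b t (M * P (x - y))) :=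
          mul_le_mul_of_nonneg_right e1 e4.le
      _ = M * P y * Real.exp (cl b t (M * P (x - y)))
          + Real.exp (-b) * Real.exp (cl b t (M * P (x - y))) := by ring
      _ ≤ M * P y * (M * P (x - y) + Real.exp (-b)) + Real.exp (-b) * Real.exp t := by
          gcongr
      _ = _ := by
          rw [← Real.exp_add]
          have : -b + t = t - b := by ring
          rw [this]; ring
  have hsum1 : ∑ y, Real.exp (f y) ≤ M * (M * ∑ y, P y * P (x - y) + Real.exp (-b)
      + Real.exp (t - b)) := by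
    refine (Finset.sum_le_sum fun y _ => hexp y).trans (le_of_eq ?_)
    rw [Finset.sum_add_distrib, Finset.sum_add_distrib, Finset.sum_const, nsmul_eq_mul,
      Finset.card_univ, ← hM]
    have e1 : ∑ y, M * P y * (M * P (x - y)) = M * (M * ∑ y, P y * P (x - y)) := by
      rw [Finset.mul_sum, Finset.mul_sum]
      exact Finset.sum_congr rfl fun y _ => by ring
    have e2 : ∑ y, M * P y * Real.exp (-b) = M * Real.exp (-b) := by
      rw [← Finset.sum_mul, ← Finset.mul_sum, hP.2, mul_one]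
    rw [e1, e2]; ring
  -- Gibbs
  have hg : ∀ y, M * (μ y * f y) ≤ M * (μ y * min (Real.log (M * μ y)) (2 * t + K))
      - M * (μ y * K) + Real.exp K * Real.exp (f y) := by
    intro y
    have h1 := gibbs_pt (M * μ y) (f y) t K (mul_nonneg hM0.le (hμP.1 y)) (hf2 y)
    rw [Real.exp_add] at h1
    have e1 : M * μ y * (min (Real.log (M * μ y)) (2 * t + K) - K)
      = M * (μ y * min (Real.log (M * μ y)) (2 * t + K)) - M * (μ y * K) := by ring
    rw [e1] at h1
    have e2 : M * (μ y * f y) = M * μ y * f y := by ring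
    rw [e2]; exact h1
  have hsum2 := Finset.sum_le_sum fun y (_ : y ∈ Finset.univ) => hg y
  rw [Finset.sum_add_distrib, Finset.sum_sub_distrib, ← Finset.mul_sum, ← Finset.mul_sum,
    ← Finset.mul_sum, ← Finset.mul_sum] at hsum2
  have e3 : ∑ y, μ y * K = K := by rw [← Finset.sum_mul, hμP.2, one_mul]
  rw [e3] at hsum2
  have h6 := psi_cnv M hM P ν hP hν (2 * t + K)
  have e4 : ∑ y, μ y * min (Real.log (M * μ y)) (2 * t + K) ≤ psi M P (2 * t + K) + 1 := by
    rw [hμ]; exact h6
  have e5 : ∑ y, μ y * f y = ∑ y, μ y * cl b t (M * P y) + ∑ y, μ y * cl b t (M * P (x - y)) := by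
    rw [← Finset.sum_add_distrib]
    exact Finset.sum_congr rfl fun y _ => by simp only [hf]; ring
  have e6 : M * ∑ y, μ y * f y ≤ M * (psi M P (2 * t + K) + 1) - M * K
      + Real.exp K * (M * (M * ∑ y, P y * P (x - y) + Real.exp (-b) + Real.exp (t - b))) := by
    refine hsum2.trans ?_
    have h7 := mul_le_mul_of_nonneg_left e4 hM0.le
    have h8 := mul_le_mul_of_nonneg_left hsum1 (Real.exp_pos K).le
    linarith
  have e7 : M * (∑ y, μ y * f y + K - psi M P (2 * t + K) - 1)
      ≤ M * (Real.exp K * (M * ∑ y, P y * P (x - y) + Real.exp (-b) + Real.exp (t - b))) := by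
    linarith
  have e8 := le_of_mul_le_mul_left e7 hM0
  rw [e5] at e8
  linarith

end

/-! ### Choice of the scale -/

/-- There is a scale at which a bounded function is far from being doubled. -/
lemma scale (ψ : ℝ → ℝ) (L K : ℝ) (hK : 16 ≤ K) (h0 : -1 ≤ ψ 0) (h1 : ∀ t, ψ t ≤ L) (J : ℕ)
    (hJ0 : 0 < J) (hJ : 2 * (L + K) ≤ K * 2 ^ J) :
    ∃ j < J, (K * 2 ^ j) * (1 / (8 * ((j : ℝ) + 1) ^ 2) + 1 / (8 * (J : ℝ)))
      ≤ 2 * ψ (K * 2 ^ j - K) - ψ (2 * (K * 2 ^ j - K) + K) - 1 + K := by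
  by_contra hno
  push Not at hno
  have hJr : (0 : ℝ) < J := by exact_mod_cast hJ0
  have hK0 : 0 < K := by linarith
  have key : ∀ j ≤ J, (K * 2 ^ j : ℝ) * (7 / 8 - 2 / K + (1 / K) * (1 / 2 ^ j) +
      1 / 8 * (1 / ((j : ℝ) + 1)) - (j : ℝ) * (1 / (16 * J))) ≤ ψ (K * 2 ^ j - K) + K := by
    intro j
    induction j with
    | zero =>
      intro _
      have e0 : (K * 2 ^ 0 : ℝ) * (7 / 8 - 2 / K + (1 / K) * (1 / 2 ^ 0) +
        1 / 8 * (1 / (((0 : ℕ) : ℝ) + 1)) - ((0 : ℕ) : ℝ) * (1 / (16 * J))) = K - 1 := by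
        field_simp
        push_cast
        ring
      have e1 : (K * 2 ^ 0 - K : ℝ) = 0 := by ring
      rw [e0, e1]
      linarith
    | succ j ih =>
      intro hj
      have h2 := ih (by omega)
      have h3 := hno j (by omega)
      have e1 : (2 * (K * 2 ^ j - K) + K : ℝ) = K * 2 ^ (j + 1) - K := by
        rw [pow_succ]; ring
      rw [e1] at h3
      have hp : (0 : ℝ) < 2 ^ j := by positivity
      have hj1 : (0 : ℝ) < (j : ℝ) + 1 := by positivity
      have hj2 : (0 : ℝ) < (j : ℝ) + 2 := by positivity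
      -- lower bound
      have h4 : 2 * ((K * 2 ^ j : ℝ) * (7 / 8 - 2 / K + (1 / K) * (1 / 2 ^ j) +
          1 / 8 * (1 / ((j : ℝ) + 1)) - (j : ℝ) * (1 / (16 * J)))) - 1
          - (K * 2 ^ j) * (1 / (8 * ((j : ℝ) + 1) ^ 2) + 1 / (8 * (J : ℝ)))
          ≤ ψ (K * 2 ^ (j + 1) - K) + K := by linarith
      refine le_trans ?_ h4
      push_cast
      have e2 : (K * 2 ^ (j + 1) : ℝ) * (7 / 8 - 2 / K + (1 / K) * (1 / 2 ^ (j + 1)) +
          1 / 8 * (1 / ((j : ℝ) + 1 + 1)) - ((j : ℝ) + 1) * (1 / (16 * J)))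
          = (7 / 4) * K * 2 ^ j - 4 * 2 ^ j + 1 + K * 2 ^ j / 4 * (1 / ((j : ℝ) + 2))
            - K * 2 ^ j / 8 * ((j : ℝ) + 1) / J := by
        have : (j : ℝ) + 1 + 1 = (j : ℝ) + 2 := by ring
        rw [this, pow_succ]
        field_simp
        ring
      have e3 : 2 * ((K * 2 ^ j : ℝ) * (7 / 8 - 2 / K + (1 / K) * (1 / 2 ^ j) +
          1 / 8 * (1 / ((j : ℝ) + 1)) - (j : ℝ) * (1 / (16 * J)))) - 1
          - (K * 2 ^ j) * (1 / (8 * ((j : ℝ) + 1) ^ 2) + 1 / (8 * (J : ℝ)))
          = (7 / 4) * K * 2 ^ j - 4 * 2 ^ j + 1 + K * 2 ^ j / 4 * (1 / ((j : ℝ) + 1))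
            - K * 2 ^ j / 8 * (1 / ((j : ℝ) + 1) ^ 2) - K * 2 ^ j / 8 * ((j : ℝ) + 1) / J := by
        field_simp
        ring
      rw [e2, e3]
      have e4 : 1 / ((j : ℝ) + 1) ^ 2 ≤ 2 * (1 / ((j : ℝ) + 1) - 1 / ((j : ℝ) + 2)) := by
        have e5 : 2 * (1 / ((j : ℝ) + 1) - 1 / ((j : ℝ) + 2))
            = 2 / (((j : ℝ) + 1) * ((j : ℝ) + 2)) := by field_simp; ring
        rw [e5, div_le_div_iff₀ (by positivity) (by positivity)]
        have : (0 : ℝ) ≤ (j : ℝ) := Nat.cast_nonneg j
        nlinarith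
      have e6 : K * 2 ^ j / 8 * (1 / ((j : ℝ) + 1) ^ 2)
          ≤ K * 2 ^ j / 8 * (2 * (1 / ((j : ℝ) + 1) - 1 / ((j : ℝ) + 2))) :=
        mul_le_mul_of_nonneg_left e4 (by positivity)
      linarith
  have h5 := key J le_rfl
  have h6 := h1 (K * 2 ^ J - K)
  have hp : (0 : ℝ) < 2 ^ J := by positivity
  have hKp : 0 < K * 2 ^ J := by positivity
  have h7 : (K * 2 ^ J : ℝ) * (11 / 16) ≤ (K * 2 ^ J : ℝ) * (7 / 8 - 2 / K + (1 / K) * (1 / 2 ^ J)
      + 1 / 8 * (1 / ((J : ℝ) + 1)) - (J : ℝ) * (1 / (16 * J))) := by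
    apply mul_le_mul_of_nonneg_left _ (by positivity)
    have a1 : (0 : ℝ) ≤ (1 / K) * (1 / 2 ^ J) := by positivity
    have a2 : (0 : ℝ) ≤ 1 / 8 * (1 / ((J : ℝ) + 1)) := by positivity
    have a3 : (J : ℝ) * (1 / (16 * J)) = 1 / 16 := by field_simp
    have a4 : 2 / K ≤ 1 / 8 := by
      rw [div_le_div_iff₀ hK0 (by norm_num)]; linarith
    rw [a3]
    linarith
  linarith

end Pool.Agent.H18.POP
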