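import Pool.Agent.H18.Quad

set_option autoImplicit false

open Finset ComplexConjugate
open scoped Pointwise

namespace Pool.Agent.H18.POP

open Pool.Agent.H18

variable {N : ℕ} [NeZero N]

/-- The smoothed function oscillates little at a point which almost annihilates the large
spectrum of the noise. -/
theorem osc_of_spectrum (A : Finset (ZMod N)) (hA : A.Nonempty) (ν₁ ν₂ σ : ZMod N → ℝ)
    (hν₁ : IsPr ν₁) (hν₂ : IsPr ν₂) (hσ : IsPr σ) (n : ℕ) (δ : ℝ) (hδ : 0 < δ) (hδ1 : δ ≤ 1)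
    (φ : ZMod N → ℝ) (h0 : ∀ x, 0 ≤ φ x) (h1 : ∀ x, φ x ≤ 1)
    (Sp : Finset (ZMod N))
    (hSp : ∀ γ, γ ∉ Sp → (N : ℝ) / A.card * (‖wft σ γ‖ ^ 2) ^ n ≤ δ / 8)
    (x : ZMod N) (hθex : ∀ γ ∈ Sp, ∃ θ : ℤ, (θ : ZMod N) = γ * x ∧ |(θ : ℝ)| ≤ N * (δ / 80)) :
    cnv (rv (cnv ν₁ (unif (-A)))) (cnv (rv (cnv ν₂ (unif A))) ((smo σ)^[n] φ)) 0 - δ
      ≤ cnv (rv (cnv ν₁ (unif (-A)))) (cnv (rv (cnv ν₂ (unif A))) ((smo σ)^[n] φ)) x := by
  classical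
  have hN : (0 : ℝ) < N := by exact_mod_cast Nat.pos_of_ne_zero (NeZero.ne N)
  have hc : (0 : ℝ) < A.card := by exact_mod_cast hA.card_pos
  have huA : IsPr (unif A) := ⟨unif_nonneg _, sum_unif _ hA⟩
  have hunA : IsPr (unif (-A)) := ⟨unif_nonneg _, sum_unif _ hA.neg⟩
  set π := cnv ν₁ (unif (-A)) with hπ
  set ω := cnv ν₂ (unif A) with hω
  have hπP : IsPr π := hν₁.cnv hunA
  have hωP : IsPr ω := hν₂.cnv huA
  set u := (smo σ)^[n] φ with hu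
  have hub : ∀ z, 0 ≤ u z ∧ u z ≤ 1 := by
    have : ∀ m, ∀ z, 0 ≤ (smo σ)^[m] φ z ∧ (smo σ)^[m] φ z ≤ 1 := by
      intro m
      induction m with
      | zero => exact fun z => ⟨h0 z, h1 z⟩
      | succ m ih =>
        intro z
        rw [Function.iterate_succ_apply']
        exact smo_mem σ _ hσ (fun y => (ih y).1) (fun y => (ih y).2) z
    exact this n
  set F := cnv (rv π) (cnv (rv ω) u) with hF
  have hFb : ∀ z, 0 ≤ F z ∧ F z ≤ 1 := fun z =>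
    ⟨cnv_nonneg _ _ hπP.rv.1 (cnv_nonneg _ _ hωP.rv.1 (fun y => (hub y).1)) z,
      cnv_le_one _ _ hπP.rv.1 hπP.rv.2
        (cnv_le_one _ _ hωP.rv.1 hωP.rv.2 (fun y => (hub y).2)) z⟩
  -- Fourier expansion
  have hrepF := rep_cnv (rv π) _ _ (rep_cnv (rv ω) _ _
    (rep_smo_iter σ φ _ (rep_inv φ) n))
  set c : ZMod N → ℂ := fun γ => wft φ γ / N * ((((‖wft σ γ‖ ^ 2) ^ n : ℝ)) : ℂ)
    * wft (rv ω) γ * wft (rv π) γ with hcc
  have hrepF' : ∀ z, (F z : ℂ) = ∑ γ, c γ * ee (γ * z) := hrepF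
  -- coefficient bounds
  have hcb : ∀ γ, ‖c γ‖ ≤ ‖wft (unif A) γ‖ ^ 2 * (‖wft σ γ‖ ^ 2) ^ n := by
    intro γ
    have e1 : ‖wft φ γ‖ ≤ N := by
      refine (norm_wft_le _ h0 γ).trans ?_
      calc ∑ x, φ x ≤ ∑ _x : ZMod N, (1 : ℝ) := Finset.sum_le_sum fun x _ => h1 x
        _ = N := by rw [Finset.sum_const, nsmul_eq_mul, mul_one, Finset.card_univ, ZMod.card]
    have e2 : ‖wft (rv ω) γ‖ ≤ ‖wft (unif A) γ‖ := by
      rw [norm_wft_rv, hω, wft_cnv, norm_mul]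
      calc ‖wft ν₂ γ‖ * ‖wft (unif A) γ‖ ≤ 1 * ‖wft (unif A) γ‖ := by
            gcongr; exact norm_wft_le_one ν₂ hν₂ γ
        _ = _ := one_mul _
    have e3 : ‖wft (rv π) γ‖ ≤ ‖wft (unif A) γ‖ := by
      rw [norm_wft_rv, hπ, wft_cnv, norm_mul, wft_unif_neg, RCLike.norm_conj]
      calc ‖wft ν₁ γ‖ * ‖wft (unif A) γ‖ ≤ 1 * ‖wft (unif A) γ‖ := by
            gcongr; exact norm_wft_le_one ν₁ hν₁ γ
        _ = _ := one_mul _
    rw [hcc]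
    beta_reduce
    rw [norm_mul, norm_mul, norm_mul, norm_div,
      Complex.norm_natCast, Complex.norm_real, Real.norm_eq_abs,
      abs_of_nonneg (by positivity : (0 : ℝ) ≤ (‖wft σ γ‖ ^ 2) ^ n)]
    calc ‖wft φ γ‖ / N * (‖wft σ γ‖ ^ 2) ^ n * ‖wft (rv ω) γ‖ * ‖wft (rv π) γ‖
        ≤ N / N * (‖wft σ γ‖ ^ 2) ^ n * ‖wft (unif A) γ‖ * ‖wft (unif A) γ‖ := by
          gcongr
      _ = _ := by rw [div_self hN.ne']; ring
  -- the tail
  have htail : ∀ z, ‖∑ γ ∈ Spᶜ, c γ * ee (γ * z)‖ ≤ δ / 8 := by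
    intro z
    have e0 : ∀ γ ∈ Spᶜ, ‖c γ * ee (γ * z)‖
        ≤ (δ / 8 * (A.card / N)) * ‖wft (unif A) γ‖ ^ 2 := by
      intro γ hγ
      rw [Finset.mem_compl] at hγ
      have e2 := hSp γ hγ
      have e3 : (‖wft σ γ‖ ^ 2) ^ n ≤ δ / 8 * (A.card / N) := by
        have h6 : (N : ℝ) / A.card * (A.card / N) = 1 := by field_simp
        have h5 : (‖wft σ γ‖ ^ 2) ^ n
            = ((N : ℝ) / A.card * (‖wft σ γ‖ ^ 2) ^ n) * (A.card / N) := by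
          calc (‖wft σ γ‖ ^ 2) ^ n = ((N : ℝ) / A.card * (A.card / N)) * (‖wft σ γ‖ ^ 2) ^ n := by
                rw [h6, one_mul]
            _ = _ := by ring
        rw [h5]
        exact mul_le_mul_of_nonneg_right e2 (div_nonneg hc.le hN.le)
      rw [norm_mul, norm_ee, mul_one]
      refine (hcb γ).trans ?_
      rw [mul_comm]
      exact mul_le_mul_of_nonneg_right e3 (by positivity)
    refine (norm_sum_le _ _).trans ((Finset.sum_le_sum e0).trans ?_)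
    rw [← Finset.mul_sum]
    have e4 : ∑ γ ∈ Spᶜ, ‖wft (unif A) γ‖ ^ 2 ≤ N / A.card := by
      rw [← sum_wft_unif_sq A hA]
      exact Finset.sum_le_sum_of_subset_of_nonneg (Finset.subset_univ _)
        fun _ _ _ => by positivity
    calc δ / 8 * (A.card / N) * ∑ γ ∈ Spᶜ, ‖wft (unif A) γ‖ ^ 2
        ≤ δ / 8 * (A.card / N) * (N / A.card) := by gcongr
      _ = δ / 8 := by field_simp
  have hsplit : ∀ z, (F z : ℂ) = ∑ γ ∈ Sp, c γ * ee (γ * z) + ∑ γ ∈ Spᶜ, c γ * ee (γ * z) := by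
    intro z
    rw [hrepF' z, Finset.sum_add_sum_compl]
  -- integer representatives
  choose! θ hθ1 hθ2 using hθex
  set m : ℕ := ⌊(N : ℝ) * (δ / 80)⌋₊ with hm
  have hmle : (m : ℝ) ≤ (N : ℝ) * (δ / 80) := Nat.floor_le (by positivity)
  have hm4 : 4 * m + 1 ≤ N := by
    have h2 : (80 * m : ℝ) ≤ N := by
      have : (N : ℝ) * δ ≤ N := by nlinarith
      linarith
    have h3 : 80 * m ≤ N := by exact_mod_cast h2
    have h4 : 0 < N := Nat.pos_of_ne_zero (NeZero.ne N)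
    omega
  have hmN : (m : ℝ) / N ≤ δ / 80 := by
    rw [div_le_iff₀ hN]; linarith
  have hθm : ∀ γ ∈ Sp, |θ γ| ≤ m := by
    intro γ hγ
    have h2 := hθ2 γ hγ
    have h3 : ((θ γ).natAbs : ℝ) ≤ (N : ℝ) * (δ / 80) := by
      rw [Nat.cast_natAbs, Int.cast_abs]; exact h2
    have h4 : (θ γ).natAbs ≤ m := Nat.le_floor h3
    have h5 : (|θ γ| : ℤ) = ((θ γ).natAbs : ℤ) := Int.abs_eq_natAbs _
    rw [h5]
    exact_mod_cast h4
  have hbern := bernstein (N := N) Sp c θ m hm4 hθm (1 + δ / 8) (by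
    intro j
    have e1 : ∑ γ ∈ Sp, c γ * ee (j * (θ γ : ZMod N)) = ∑ γ ∈ Sp, c γ * ee (γ * (j * x)) := by
      refine Finset.sum_congr rfl fun γ hγ => ?_
      rw [hθ1 γ hγ]
      congr 2; ring
    rw [e1]
    have e2 : ∑ γ ∈ Sp, c γ * ee (γ * (j * x))
        = (F (j * x) : ℂ) - ∑ γ ∈ Spᶜ, c γ * ee (γ * (j * x)) := by
      rw [hsplit (j * x)]; ring
    rw [e2]
    refine (norm_sub_le _ _).trans ?_
    have e3 := htail (j * x)
    have e4 : ‖(F (j * x) : ℂ)‖ ≤ 1 := by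
      rw [Complex.norm_real, Real.norm_eq_abs, abs_of_nonneg (hFb _).1]
      exact (hFb _).2
    linarith)
  have e1 : ∑ γ ∈ Sp, c γ * ee ((θ γ : ℤ) : ZMod N) = ∑ γ ∈ Sp, c γ * ee (γ * x) := by
    refine Finset.sum_congr rfl fun γ hγ => ?_
    rw [hθ1 γ hγ]
  have e2 : ∑ γ ∈ Sp, c γ = ∑ γ ∈ Sp, c γ * ee (γ * 0) := by
    refine Finset.sum_congr rfl fun γ _ => ?_
    rw [mul_zero, ee_zero, mul_one]
  rw [e1, e2] at hbern
  have e3 : ‖(F x : ℂ) - (F 0 : ℂ)‖ ≤ 27 * (m / N) * (1 + δ / 8) + δ / 8 + δ / 8 := by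
    have e4 : (F x : ℂ) - (F 0 : ℂ)
        = (∑ γ ∈ Sp, c γ * ee (γ * x) - ∑ γ ∈ Sp, c γ * ee (γ * 0))
          + ∑ γ ∈ Spᶜ, c γ * ee (γ * x) - ∑ γ ∈ Spᶜ, c γ * ee (γ * 0) := by
      rw [hsplit x, hsplit 0]; ring
    rw [e4]
    refine (norm_sub_le _ _).trans ?_
    have e5 := norm_add_le (∑ γ ∈ Sp, c γ * ee (γ * x) - ∑ γ ∈ Sp, c γ * ee (γ * 0))
      (∑ γ ∈ Spᶜ, c γ * ee (γ * x))
    have e6 := htail x
    have e7 := htail 0
    linarith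
  rw [← Complex.ofReal_sub, Complex.norm_real, Real.norm_eq_abs] at e3
  have e8 := abs_le.mp e3
  have e9 : 27 * ((m : ℝ) / N) * (1 + δ / 8) ≤ 27 * (δ / 80) * (9 / 8) := by
    have : 1 + δ / 8 ≤ 9 / 8 := by linarith
    gcongr
  linarith [e8.1]

/-- From a noise distribution to a Bohr set on which the smoothed function oscillates little. -/
theorem osc_of_noise (A : Finset (ZMod N)) (hA : A.Nonempty) (ν₁ ν₂ σ : ZMod N → ℝ)
    (hν₁ : IsPr ν₁) (hν₂ : IsPr ν₂) (hσ : IsPr σ) (n : ℕ) (δ : ℝ) (hδ : 0 < δ) (hδ1 : δ ≤ 1)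
    (φ : ZMod N → ℝ) (h0 : ∀ x, 0 ≤ φ x) (h1 : ∀ x, φ x ≤ 1)
    (hn : (N : ℝ) / A.card ≤ 4 ^ n * (δ / 8)) :
    ∃ Γ : Finset (ZMod N), (Γ.card : ℝ) ≤ 8 * (Real.log N - entT σ) ∧
      ∀ ε : ℝ, Γ.card * ε ≤ δ / 80 → ∀ x : ZMod N,
        (∀ γ ∈ Γ, |((γ * x).val : ℝ) / (N : ℝ)
          - ((round (((γ * x).val : ℝ) / (N : ℝ)) : ℤ) : ℝ)| ≤ ε) →
        cnv (rv (cnv ν₁ (unif (-A)))) (cnv (rv (cnv ν₂ (unif A))) ((smo σ)^[n] φ)) 0 - δ
          ≤ cnv (rv (cnv ν₁ (unif (-A)))) (cnv (rv (cnv ν₂ (unif A))) ((smo σ)^[n] φ)) x := by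
  classical
  have hN : (0 : ℝ) < N := by exact_mod_cast Nat.pos_of_ne_zero (NeZero.ne N)
  set Sp : Finset (ZMod N) := Finset.univ.filter (fun γ => (1 : ℝ) / 2 ≤ ‖wft σ γ‖) with hSp
  obtain ⟨Γ, hΓS, hΓc, hΓspan⟩ := Finset.exists_subset_addSpan_card_le_of_forall_addDissociated
    (s := Sp) (d := ⌊8 * (Real.log N - entT σ)⌋₊) (by
      intro Λ hΛ hdis
      apply Nat.le_floor
      refine chang_measure σ hσ Λ hdis fun γ hγ => ?_
      have := hΛ hγ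
      rw [hSp, Finset.mem_filter] at this
      exact this.2)
  refine ⟨Γ, ?_, ?_⟩
  · have h2 : 0 ≤ 8 * (Real.log N - entT σ) := by
      have h3 := ent_le_log_card σ hσ.1 hσ.2 Finset.univ (fun x _ => Finset.mem_univ x)
      rw [Finset.card_univ, ZMod.card] at h3
      have h4 : entT σ ≤ Real.log N := h3
      linarith
    exact (Nat.cast_le.mpr hΓc).trans (Nat.floor_le h2)
  · intro ε hε x hx
    refine osc_of_spectrum A hA ν₁ ν₂ σ hν₁ hν₂ hσ n δ hδ hδ1 φ h0 h1 Sp ?_ x ?_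
    · intro γ hγ
      rw [hSp, Finset.mem_filter] at hγ
      push Not at hγ
      have e2 := (hγ (Finset.mem_univ γ)).le
      have e3 : (‖wft σ γ‖ ^ 2) ^ n ≤ (1 / 4) ^ n := by
        apply pow_le_pow_left₀ (by positivity)
        have := pow_le_pow_left₀ (norm_nonneg _) e2 2
        norm_num at this ⊢
        linarith
      have hc : (0 : ℝ) < A.card := by exact_mod_cast hA.card_pos
      calc (N : ℝ) / A.card * (‖wft σ γ‖ ^ 2) ^ n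
          ≤ (4 ^ n * (δ / 8)) * (1 / 4) ^ n := by gcongr
        _ = δ / 8 := by rw [one_div, inv_pow]; field_simp
    · intro γ hγ
      obtain ⟨θ, h2, h3⟩ := lift_bohr Γ ε x hx γ (hΓspan hγ)
      refine ⟨θ, h2, h3.trans ?_⟩
      calc (Γ.card : ℝ) * ε * N ≤ δ / 80 * N := by gcongr
        _ = N * (δ / 80) := by ring

end Pool.Agent.H18.POP
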