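import Pool.Agent.H18.POP.Basic
import Pool.Agent.H18.POP.Osc
import Pool.Agent.H84.CP.Defs

set_option autoImplicit false

open Finset ComplexConjugate
open scoped Pointwise

namespace Pool.Agent.H18.POP

open Pool.Agent.H18 Pool.H84.CP

section

variable {G : Type*} [AddCommGroup G] [Fintype G]

lemma cnv_comm (f g : G → ℝ) : cnv f g = cnv g f := by
  funext x
  unfold cnv
  refine Fintype.sum_equiv (Equiv.subLeft x) _ _ fun s => ?_
  simp only [Equiv.subLeft_apply, sub_sub_cancel]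
  ring

lemma cnv_assoc' (f g h : G → ℝ) : cnv (cnv f g) h = cnv f (cnv g h) :=
  funext fun x => cnv_assoc f g h x

lemma rv_cnv (f g : G → ℝ) : rv (cnv f g) = cnv (rv f) (rv g) := by
  funext x
  unfold rv cnv
  rw [← sum_neg_arg (fun s => f s * g (-x - s))]
  refine Finset.sum_congr rfl fun s _ => ?_
  congr 2
  abel

omit [Fintype G] in
lemma rv_unif [DecidableEq G] (A : Finset G) : rv (unif A) = unif (-A) := by
  funext x
  unfold rv unif
  by_cases h : x ∈ -A
  · rw [if_pos h, if_pos (Finset.mem_neg'.mp h), Finset.card_neg]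
  · rw [if_neg h, if_neg (fun h' => h (Finset.mem_neg'.mpr h'))]

omit [Fintype G] in
lemma rv_unif_neg [DecidableEq G] (A : Finset G) : rv (unif (-A)) = unif A := by
  rw [rv_unif, neg_neg]

lemma Qf_eq_sum (a b φ : G → ℝ) : Qf φ a b = ∑ y, cnv a b y * φ y := by
  unfold Qf cnv
  have h1 : ∀ x, ∑ w, a x * b w * φ (x + w) = ∑ y, a x * b (y - x) * φ y := by
    intro x
    rw [← sum_sub_right (fun w => a x * b w * φ (x + w)) x]
    refine Finset.sum_congr rfl fun y _ => ?_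
    congr 2
    abel
  simp_rw [h1]
  rw [Finset.sum_comm]
  refine Finset.sum_congr rfl fun y _ => ?_
  rw [Finset.sum_mul]

end

section

variable {G : Type*} [AddCommGroup G] [Fintype G] [DecidableEq G]

/-- Law of the difference of two uniform elements of `A`. -/
noncomputable def dif (A : Finset G) : G → ℝ := cnv (unif A) (unif (-A))

lemma dif_pr (A : Finset G) (hA : A.Nonempty) : IsPr (dif A) :=
  IsPr.cnv ⟨unif_nonneg _, sum_unif _ hA⟩ ⟨unif_nonneg _, sum_unif _ hA.neg⟩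

lemma dif_neg (A : Finset G) (y : G) : dif A (-y) = dif A y := by
  have h : rv (dif A) = dif A := by
    unfold dif
    rw [rv_cnv, rv_unif, rv_unif_neg, cnv_comm]
  calc dif A (-y) = rv (dif A) y := rfl
    _ = dif A y := by rw [h]

lemma dif_le (A : Finset G) (hA : A.Nonempty) (y : G) : dif A y ≤ (A.card : ℝ)⁻¹ := by
  unfold dif cnv
  have h1 : ∀ s, unif A s * unif (-A) (y - s) ≤ unif A s * (A.card : ℝ)⁻¹ := by
    intro s
    refine mul_le_mul_of_nonneg_left ?_ (unif_nonneg A s)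
    unfold unif
    split_ifs
    · rw [Finset.card_neg]
    · positivity
  calc ∑ s, unif A s * unif (-A) (y - s) ≤ ∑ s, unif A s * (A.card : ℝ)⁻¹ :=
        Finset.sum_le_sum fun s _ => h1 s
    _ = (A.card : ℝ)⁻¹ := by rw [← Finset.sum_mul, sum_unif A hA, one_mul]

/-- Number of representations of `x` in `2A - 2A`. -/
def rep4 (A : Finset G) (x : G) : ℕ :=
  (((A ×ˢ A) ×ˢ (A ×ˢ A)).filter (fun p => p.1.1 + p.1.2 - p.2.1 - p.2.2 = x)).card

lemma cnv_unif_apply (A : Finset G) (u : G → ℝ) (x : G) :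
    cnv (unif A) u x = ∑ a ∈ A, (A.card : ℝ)⁻¹ * u (x - a) := by
  unfold cnv
  rw [sum_unif_mul A (fun s => u (x - s))]

lemma cnv_unif_neg_apply (A : Finset G) (u : G → ℝ) (x : G) :
    cnv (unif (-A)) u x = ∑ b ∈ A, (A.card : ℝ)⁻¹ * u (x + b) := by
  unfold cnv
  rw [sum_unif_mul (-A) (fun s => u (x - s)), Finset.card_neg, Finset.sum_neg_index]
  refine Finset.sum_congr rfl fun b _ => ?_
  rw [sub_neg_eq_add]

lemma dif_dif (A : Finset G) (hA : A.Nonempty) (x : G) :
    ∑ y, dif A y * dif A (x - y) = (rep4 A x : ℝ) / (A.card : ℝ) ^ 4 := by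
  have hc : (A.card : ℝ) ≠ 0 := by exact_mod_cast hA.card_pos.ne'
  have h1 : ∑ y, dif A y * dif A (x - y) = cnv (dif A) (dif A) x := rfl
  have h2 : cnv (dif A) (dif A) = cnv (unif A) (cnv (unif A) (cnv (unif (-A)) (unif (-A)))) := by
    unfold dif
    rw [cnv_assoc']
    congr 1
    rw [← cnv_assoc', cnv_comm (unif (-A)) (unif A), cnv_assoc']
  have h3 : ∀ z : G, unif (-A) z = ∑ d ∈ A, (A.card : ℝ)⁻¹ * (if d = -z then 1 else 0) := by
    intro z
    rw [← Finset.mul_sum, Finset.sum_ite_eq' A (-z) (fun _ => (1 : ℝ))]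
    unfold unif
    by_cases h : -z ∈ A
    · rw [if_pos h, if_pos (Finset.mem_neg'.mpr h), Finset.card_neg, mul_one]
    · rw [if_neg h, if_neg (fun h' => h (Finset.mem_neg'.mp h')), mul_zero]
  rw [h1, h2]
  have h4 : cnv (unif A) (cnv (unif A) (cnv (unif (-A)) (unif (-A)))) x
      = ∑ a ∈ A, (A.card : ℝ)⁻¹ * ∑ b ∈ A, (A.card : ℝ)⁻¹ * ∑ c ∈ A, (A.card : ℝ)⁻¹ *
        ∑ d ∈ A, (A.card : ℝ)⁻¹ * (if d = -(x - a - b + c) then 1 else 0) := by
    rw [cnv_unif_apply]
    refine Finset.sum_congr rfl fun a _ => ?_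
    rw [cnv_unif_apply]
    congr 1
    refine Finset.sum_congr rfl fun b _ => ?_
    rw [cnv_unif_neg_apply]
    congr 1
    refine Finset.sum_congr rfl fun c _ => ?_
    rw [h3]
  rw [h4]
  have h5 : (rep4 A x : ℝ) = ∑ a ∈ A, ∑ b ∈ A, ∑ c ∈ A, ∑ d ∈ A,
      (if d = -(x - a - b + c) then (1 : ℝ) else 0) := by
    unfold rep4
    rw [Finset.card_filter, Nat.cast_sum, Finset.sum_product, Finset.sum_product]
    refine Finset.sum_congr rfl fun a _ => Finset.sum_congr rfl fun b _ => ?_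
    rw [Finset.sum_product]
    refine Finset.sum_congr rfl fun c _ => Finset.sum_congr rfl fun d _ => ?_
    simp only
    by_cases h : a + b - c - d = x
    · have h' : d = -(x - a - b + c) := by rw [← h]; abel
      rw [if_pos h, if_pos h']; norm_num
    · have h' : ¬ d = -(x - a - b + c) := by
        intro h6
        apply h
        rw [h6]; abel
      rw [if_neg h, if_neg h']; norm_num
  rw [h5]
  simp_rw [← Finset.mul_sum]
  field_simp

end

lemma four_sq_le (j : ℕ) : 4 * ((j : ℝ) + 1) ^ 2 ≤ 9 * 2 ^ j := by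
  rcases Nat.lt_or_ge j 3 with h | h
  · interval_cases j <;> norm_num
  · induction j, h using Nat.le_induction with
    | base => norm_num
    | succ j hj ih =>
      have h3 : (3 : ℝ) ≤ j := by exact_mod_cast hj
      push_cast
      have e1 : (2 : ℝ) ^ (j + 1) = 2 * 2 ^ j := by rw [pow_succ]; ring
      rw [e1]
      nlinarith

/-- Integer representative of an element close to `0`. -/
lemma lift_bn {N : ℕ} [NeZero N] (y : ZMod N) (r : ℝ) (h : bn y ≤ r) :
    ∃ θ : ℤ, (θ : ZMod N) = y ∧ |(θ : ℝ)| ≤ N * r := by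
  have hN : (0 : ℝ) < N := by exact_mod_cast Nat.pos_of_ne_zero (NeZero.ne N)
  refine ⟨(y.val : ℤ) - N * round ((y.val : ℝ) / (N : ℝ)), ?_, ?_⟩
  · push_cast
    rw [ZMod.natCast_self, zero_mul, sub_zero, ZMod.natCast_zmod_val]
  · unfold bn at h
    have e1 : (((y.val : ℤ) - N * round ((y.val : ℝ) / (N : ℝ)) : ℤ) : ℝ)
        = N * ((y.val : ℝ) / (N : ℝ) - ((round ((y.val : ℝ) / (N : ℝ)) : ℤ) : ℝ)) := by
      push_cast
      field_simp
    rw [e1, abs_mul, abs_of_pos hN]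
    exact mul_le_mul_of_nonneg_left h hN.le

/-- Main theorem in terms of the noise. -/
theorem pop_noise {N : ℕ} [NeZero N] (A : Finset (ZMod N)) (hA : A.Nonempty) (L K : ℝ)
    (hL0 : 0 < L) (hL : L = Real.log ((N : ℝ) / A.card)) (hK : 16 ≤ K) (J : ℕ) (hJ0 : 0 < J)
    (hJ : 2 * (L + K) ≤ K * 2 ^ J) (n i : ℕ) (η : ℝ) (hη0 : 0 ≤ η) (hη1 : η ≤ 1)
    (hn : (N : ℝ) / A.card * (1 - η) ^ n ≤ 1 / (384 * J) / 8)
    (hi : 384 * (J : ℝ) * n ≤ 2 ^ i) :
    ∃ σ : ZMod N → ℝ, IsPr σ ∧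
      Real.log N - entT σ ≤ L * (768 * J * L) + 2 * i * (768 * J * L) ^ 2 ∧
      ∀ x : ZMod N, (∀ γ, 1 - η ≤ ‖wft σ γ‖ → bn (γ * x) ≤ 1 / (384 * J) / 80) →
        Real.exp (-(K + 1)) ≤ N * ((rep4 A x : ℝ) / (A.card : ℝ) ^ 4) := by
  classical
  have hK0 : 0 < K := by linarith
  have hN : (0 : ℝ) < N := by exact_mod_cast Nat.pos_of_ne_zero (NeZero.ne N)
  have hc : (0 : ℝ) < A.card := by exact_mod_cast hA.card_pos
  have hJr : (0 : ℝ) < J := by exact_mod_cast hJ0
  have hJ1 : (1 : ℝ) ≤ J := by exact_mod_cast hJ0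
  set M : ℝ := (N : ℝ) with hMdef
  have hM : M = Fintype.card (ZMod N) := by rw [ZMod.card]
  have hLdiff : L = Real.log N - Real.log A.card := by
    rw [hL, Real.log_div hN.ne' hc.ne']
  set P := dif A with hP
  have hPP : IsPr P := dif_pr A hA
  have huA : IsPr (unif A) := ⟨unif_nonneg _, sum_unif _ hA⟩
  have hunA : IsPr (unif (-A)) := ⟨unif_nonneg _, sum_unif _ hA.neg⟩
  -- the scale
  obtain ⟨j, hj, hsc⟩ := scale (psi M P) L K hK (neg_one_le_psi M hM P hPP) (fun t => by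
    apply psi_le M P hPP t L
    intro y hy
    have h1 : 0 < P y := lt_of_le_of_ne (hPP.1 y) (Ne.symm hy)
    rw [hL]
    apply Real.log_le_log (by positivity)
    rw [div_eq_mul_inv]
    exact mul_le_mul_of_nonneg_left (dif_le A hA y) hN.le) J hJ0 hJ
  set s : ℝ := K * 2 ^ j with hs
  set c : ℝ := 1 / (8 * ((j : ℝ) + 1) ^ 2) + 1 / (8 * (J : ℝ)) with hcdef
  set t : ℝ := s - K with ht
  have hs16 : K ≤ s := by
    have : (1 : ℝ) ≤ 2 ^ j := one_le_pow₀ (by norm_num)
    rw [hs]; nlinarith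
  have ht0 : 0 ≤ t := by rw [ht]; linarith
  set b : ℝ := t + K + 2 with hb
  have hbt : -b ≤ t := by rw [hb]; linarith
  have hbt0 : 0 < t + b := by rw [hb]; linarith
  set a : ZMod N → ℝ := fun y => cl b t (M * P y) with ha
  set φ : ZMod N → ℝ := fun y => (a y + b) / (t + b) with hφ
  have h0 : ∀ y, 0 ≤ φ y := fun y => by
    have := neg_le_cl b t (M * P y)
    apply div_nonneg _ hbt0.le
    simp only [ha]; linarith
  have h1 : ∀ y, φ y ≤ 1 := fun y => by
    have := cl_le b t (M * P y) hbt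
    simp only [hφ, ha]
    rw [div_le_one hbt0]; linarith
  have hφneg : ∀ y, φ (-y) = φ y := fun y => by
    simp only [hφ, ha, hP]
    rw [dif_neg]
  -- the state
  set Λ : ℝ := 768 * J * L with hΛ
  have hΛ0 : 0 < Λ := by rw [hΛ]; positivity
  obtain ⟨ν₁, ν₂, hν₁, hν₂, hgain, hst⟩ := exists_state (unif (-A)) (unif A) φ Λ
    hunA huA hΛ0.le h0 h1
  set π := cnv ν₁ (unif (-A)) with hπ
  set ω := cnv ν₂ (unif A) with hω
  have hπP : IsPr π := hν₁.cnv hunA
  have hωP : IsPr ω := hν₂.cnv huA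
  have hentA : entT (unif A) = Real.log A.card := ent_unif A hA
  have hentnA : entT (unif (-A)) = Real.log A.card := by
    have := ent_unif (-A) hA.neg
    rw [Finset.card_neg] at this
    exact this
  have hle : ∀ p : ZMod N → ℝ, IsPr p → entT p ≤ Real.log N := by
    intro p hp
    have h3 := ent_le_log_card p hp.1 hp.2 Finset.univ (fun x _ => Finset.mem_univ x)
    rw [Finset.card_univ, ZMod.card] at h3
    exact h3
  set E : ℝ := ∑ y, P y * φ y with hE
  have hQ0 : Qf φ (unif (-A)) (unif A) = E := by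
    rw [Qf_eq_sum, hE, hP]
    unfold dif
    rw [cnv_comm]
  have hQ : E - 1 / (384 * J) ≤ Qf φ π ω := by
    rw [hQ0, hentA, hentnA] at hgain
    have h2 := hle π hπP
    have h3 := hle ω hωP
    have h4 : Λ * (E - 1 / (384 * J)) ≤ Λ * Qf φ π ω := by
      have h5 : Λ * (1 / (384 * J)) = 2 * L := by rw [hΛ]; field_simp; norm_num
      rw [mul_sub, h5]
      linarith
    exact le_of_mul_le_mul_left h4 hΛ0
  have hLπ : Real.log (Fintype.card (ZMod N)) - entT π ≤ L := by
    rw [ZMod.card]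
    have h2 : entT (unif (-A)) ≤ entT π := ent_le_ent_cnv _ _ hν₁.1 hν₁.2 hunA.1
    rw [hentnA] at h2
    linarith
  obtain ⟨σ, hσ, hmi, -, hdef⟩ := exists_noise π ω hπP hωP Λ L hΛ0 hLπ hst i
  rw [ZMod.card] at hdef
  have hQn : E - 2 / (384 * J) ≤ Qf ((smo σ)^[n] φ) π ω := by
    have h2 := (Qf_iter σ π ω hσ hπP hωP φ h0 h1 n).2
    have h3 : (n : ℝ) * Real.sqrt (mi (jnt σ π ω)) ≤ 1 / (384 * J) := by
      have h4 : (n : ℝ) * Real.sqrt (mi (jnt σ π ω)) ≤ n * (1 / 2) ^ i := by gcongr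
      refine h4.trans ?_
      rw [one_div, inv_pow, ← div_eq_mul_inv, div_le_div_iff₀ (by positivity) (by positivity)]
      linarith
    have h6 : (2 : ℝ) / (384 * J) = 1 / (384 * J) + 1 / (384 * J) := by ring
    rw [h6]; linarith
  refine ⟨σ, hσ, hdef, ?_⟩
  intro x hx
  have hFx := osc_of_spectrum A hA ν₁ ν₂ σ hν₁ hν₂ hσ n (1 / (384 * J)) (by positivity)
    (by rw [div_le_one (by positivity)]; linarith) φ h0 h1
    (Finset.univ.filter (fun γ => 1 - η ≤ ‖wft σ γ‖)) (by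
      intro γ hγ
      rw [Finset.mem_filter] at hγ
      push Not at hγ
      have e2 := (hγ (Finset.mem_univ γ)).le
      have e3 : (‖wft σ γ‖ ^ 2) ^ n ≤ (1 - η) ^ n := by
        apply pow_le_pow_left₀ (by positivity)
        have h3 := norm_wft_le_one σ hσ γ
        have h4 := norm_nonneg (wft σ γ)
        nlinarith
      refine le_trans ?_ hn
      exact mul_le_mul_of_nonneg_left e3 (div_nonneg hN.le hc.le)) x (by
      intro γ hγ
      rw [Finset.mem_filter] at hγ
      exact lift_bn (γ * x) _ (hx γ hγ.2))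
  set F := cnv (rv π) (cnv (rv ω) ((smo σ)^[n] φ)) with hF
  have hF0 : F 0 = Qf ((smo σ)^[n] φ) π ω := by
    rw [hF, cnv_rv]
    simp_rw [cnv_rv]
    unfold Qf
    refine Finset.sum_congr rfl fun z _ => ?_
    rw [Finset.mul_sum]
    refine Finset.sum_congr rfl fun w _ => ?_
    rw [zero_add]; ring
  -- the mixture
  obtain ⟨κ, hκ, hκu⟩ := smo_iter_eq_cnv σ φ hσ n
  set ν := cnv (rv ν₁) (cnv (rv ν₂) κ) with hν
  have hνP : IsPr ν := hν₁.rv.cnv (hν₂.rv.cnv hκ)
  have hFν : F = cnv (cnv ν P) φ := by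
    rw [hF, hκu, hπ, hω, rv_cnv, rv_cnv, rv_unif_neg A, rv_unif A, hν, hP]
    unfold dif
    simp only [cnv_assoc']
    congr 1
    rw [← cnv_assoc' (unif A) (rv ν₂), cnv_comm (unif A) (rv ν₂), cnv_assoc']
    congr 1
    rw [← cnv_assoc' (unif A) (unif (-A)), ← cnv_assoc' (cnv (unif A) (unif (-A))) κ,
      cnv_comm (cnv (unif A) (unif (-A))) κ, cnv_assoc', cnv_assoc']
  set μ := cnv ν P with hμ
  have hμP : IsPr μ := hνP.cnv hPP
  have hF0' : F 0 = ∑ y, μ y * φ y := by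
    rw [hFν]
    unfold cnv
    refine Finset.sum_congr rfl fun y _ => ?_
    rw [zero_sub, hφneg]
  have hFx' : F x = ∑ y, μ y * φ (x - y) := by
    rw [hFν]; rfl
  have hconv : ∀ (q : ZMod N → ℝ) (g : ZMod N → ZMod N), IsPr q →
      ∑ y, q y * a (g y) = (t + b) * (∑ y, q y * φ (g y)) - b := by
    intro q g hq
    have e1 : ∀ y, q y * φ (g y) * (t + b) = q y * a (g y) + q y * b := by
      intro y
      simp only [hφ]
      field_simp
    have e2 : (∑ y, q y * φ (g y)) * (t + b) = ∑ y, q y * a (g y) + b := by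
      rw [Finset.sum_mul]
      simp_rw [e1]
      rw [Finset.sum_add_distrib, ← Finset.sum_mul, hq.2, one_mul]
    linarith
  have hmain := main_ineq M hM P ν hPP hνP b t K hbt x
  have g1 : ∑ y, μ y * a y = (t + b) * F 0 - b := by
    rw [hF0']
    exact hconv μ (fun y => y) hμP
  have g2 : ∑ y, μ y * a (x - y) = (t + b) * F x - b := by
    rw [hFx']
    exact hconv μ (fun y => x - y) hμP
  have g3 : ∑ y, P y * a y = (t + b) * E - b := hconv P (fun y => y) hPP
  have g4 : psi M P t ≤ ∑ y, P y * a y := by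
    unfold psi
    refine Finset.sum_le_sum fun y _ => ?_
    rcases (hPP.1 y).eq_or_lt with h | h
    · rw [← h, zero_mul, zero_mul]
    · exact mul_le_mul_of_nonneg_left (min_log_le_cl b t _ (by positivity)) h.le
  rw [← hμ] at hmain
  have g5 : ∑ y, μ y * cl b t (M * P y) = ∑ y, μ y * a y := rfl
  have g6 : ∑ y, μ y * cl b t (M * P (x - y)) = ∑ y, μ y * a (x - y) := rfl
  rw [g5, g6, g1, g2] at hmain
  have hd : 1 / (128 * (J : ℝ)) ≤ c / 16 := by
    rw [hcdef]
    have : 0 ≤ 1 / (8 * ((j : ℝ) + 1) ^ 2) := by positivity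
    have e : 1 / (128 * (J : ℝ)) = 1 / (8 * (J : ℝ)) / 16 := by field_simp; norm_num
    rw [e]; linarith
  have h3J : (3 : ℝ) / (384 * J) = 1 / (128 * J) := by field_simp; norm_num
  have g7 : E - 1 / (128 * (J : ℝ)) ≤ F 0 := by
    rw [hF0, ← h3J]
    have : (3 : ℝ) / (384 * J) = 2 / (384 * J) + 1 / (384 * J) := by ring
    have h8 : (0 : ℝ) ≤ 1 / (384 * J) := by positivity
    rw [this]; linarith
  have g8 : E - 1 / (128 * (J : ℝ)) ≤ F x := by
    rw [← h3J]
    have : (3 : ℝ) / (384 * J) = 2 / (384 * J) + 1 / (384 * J) := by ring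
    rw [this]
    rw [← hF0] at hQn
    linarith
  have g9 : (t + b) * (E - 1 / (128 * (J : ℝ))) ≤ (t + b) * F 0 :=
    mul_le_mul_of_nonneg_left g7 hbt0.le
  have g10 : (t + b) * (E - 1 / (128 * (J : ℝ))) ≤ (t + b) * F x :=
    mul_le_mul_of_nonneg_left g8 hbt0.le
  have g11 : (t + b) * (1 / (128 * (J : ℝ))) ≤ s * c / 8 := by
    have e1 : t + b ≤ 2 * s := by rw [hb, ht]; linarith
    calc (t + b) * (1 / (128 * (J : ℝ))) ≤ (2 * s) * (c / 16) := by
          apply mul_le_mul e1 hd (by positivity) (by positivity)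
      _ = s * c / 8 := by ring
  have hsc' : s * c ≤ 2 * psi M P t - psi M P (2 * t + K) - 1 + K := hsc
  have hsclow : 8 / 9 ≤ s * c := by
    have e1 := four_sq_le j
    have e2 : (0 : ℝ) < ((j : ℝ) + 1) ^ 2 := by positivity
    have e3 : 8 / 9 ≤ s * (1 / (8 * ((j : ℝ) + 1) ^ 2)) := by
      have e5 : (16 : ℝ) * 2 ^ j ≤ s := by rw [hs]; gcongr
      rw [mul_one_div, div_le_div_iff₀ (by norm_num) (by positivity)]
      linarith
    have e4 : 0 ≤ s * (1 / (8 * (J : ℝ))) := by positivity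
    rw [hcdef, mul_add]; linarith
  have hS : M * ∑ y, P y * P (x - y) = N * ((rep4 A x : ℝ) / (A.card : ℝ) ^ 4) := by
    rw [hP, dif_dif A hA x]
  rw [hS] at hmain
  -- numerics
  have n1 : Real.exp K * (Real.exp (-b) + Real.exp (t - b)) ≤ 2 * Real.exp (-2) := by
    have e1 : Real.exp (-b) ≤ Real.exp (-(K + 2)) := Real.exp_le_exp.mpr (by rw [hb]; linarith)
    have e2 : Real.exp (t - b) = Real.exp (-(K + 2)) := by rw [hb]; congr 1; ring
    have e3 : Real.exp K * Real.exp (-(K + 2)) = Real.exp (-2) := by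
      rw [← Real.exp_add]; congr 1; ring
    have e4 := Real.exp_pos K
    calc Real.exp K * (Real.exp (-b) + Real.exp (t - b))
        ≤ Real.exp K * (Real.exp (-(K + 2)) + Real.exp (-(K + 2))) := by rw [e2]; gcongr
      _ = 2 * (Real.exp K * Real.exp (-(K + 2))) := by ring
      _ = 2 * Real.exp (-2) := by rw [e3]
  have n2 : Real.exp (-2) ≤ 0.14 := by
    have e1 : Real.exp (-2) = (Real.exp (-1)) ^ 2 := by
      rw [← Real.exp_nat_mul]; norm_num
    have e2 := Real.exp_neg_one_lt_d9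
    have e3 := Real.exp_pos (-1 : ℝ)
    rw [e1]; nlinarith
  have n3 : Real.exp (-1) ≤ 0.37 := by
    have e2 := Real.exp_neg_one_lt_d9
    linarith
  have n4 : Real.exp K * Real.exp (-(K + 1)) = Real.exp (-1) := by
    rw [← Real.exp_add]; congr 1; ring
  have n5 : Real.exp K * Real.exp (-(K + 1)) ≤ Real.exp K * (N * ((rep4 A x : ℝ) / (A.card : ℝ) ^ 4)) := by
    rw [n4]
    have e1 : Real.exp K * (N * ((rep4 A x : ℝ) / (A.card : ℝ) ^ 4) + Real.exp (-b)
        + Real.exp (t - b)) = Real.exp K * (N * ((rep4 A x : ℝ) / (A.card : ℝ) ^ 4))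
        + Real.exp K * (Real.exp (-b) + Real.exp (t - b)) := by ring
    rw [e1] at hmain
    linarith
  exact le_of_mul_le_mul_left n5 (Real.exp_pos K)

end Pool.Agent.H18.POP
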