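import Pool.Agent.H18.POP.Core
import Pool.Agent.H84.IT.GL
import Pool.Agent.H33.QB.Multi

set_option autoImplicit false

open Finset
open scoped Pointwise

namespace Pool.Agent.H18.POP

open Pool.Agent.H18 Pool.H84.CP Pool.H84.IT

/-- Radius a power of `1 / L`. -/
theorem pop_base :
    ∃ C : ℝ, 0 < C ∧ ∃ c : ℝ, 0 < c ∧
      ∀ N : ℕ, 0 < N → ∀ A : Finset (ZMod N), A.Nonempty →
        (A.card : ℝ) / (N : ℝ) ≤ 1 / 2 →
        ∀ L : ℝ, L = Real.log ((N : ℝ) / (A.card : ℝ)) → ∀ K : ℝ, 16 ≤ K →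
          ∃ Γ : Finset (ZMod N), ∃ ε : ℝ, 0 < ε ∧
            (Γ.card : ℝ) ≤ C * (L ^ 2 * Real.log (2 + L / K) ^ 2) ∧ c / (L + 2) ^ 5 ≤ ε ∧
            ∀ x : ZMod N,
              (∀ γ ∈ Γ,
                |((γ * x).val : ℝ) / (N : ℝ) - ((round (((γ * x).val : ℝ) / (N : ℝ)) : ℤ) : ℝ)|
                  ≤ ε) →
              Real.exp (-(K + 1)) ≤ N * ((rep4 A x : ℝ) / (A.card : ℝ) ^ 4) := by
  refine ⟨800000000000, by norm_num, 1 / 1600000000000, by norm_num, ?_⟩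
  intro N hN0 A hA hdens L hL K hK
  have : NeZero N := ⟨hN0.ne'⟩
  have hN : (0 : ℝ) < N := by exact_mod_cast hN0
  have hc : (0 : ℝ) < A.card := by exact_mod_cast hA.card_pos
  have hK0 : 0 < K := by linarith
  have hlog2 := Real.log_two_gt_d9
  have hlog2' := Real.log_two_lt_d9
  have hLlow : 1 / 2 ≤ L := by
    have h1 : (2 : ℝ) ≤ (N : ℝ) / A.card := by
      rw [le_div_iff₀ hc]
      rw [div_le_iff₀ hN] at hdens
      linarith
    have h2 := Real.log_le_log (by norm_num) h1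
    rw [hL]; linarith
  have hL0 : 0 < L := by linarith
  -- parameters
  obtain ⟨T, hT⟩ : ∃ T : ℝ, T = L + 2 := ⟨_, rfl⟩
  obtain ⟨ℓ, hℓ⟩ : ∃ ℓ : ℝ, ℓ = Real.log T := ⟨_, rfl⟩
  obtain ⟨u, hu⟩ : ∃ u : ℝ, u = Real.log (2 + L / K) := ⟨_, rfl⟩
  have hT2 : 2 ≤ T := by linarith
  have hT0 : 0 < T := by linarith
  have hLT : L ≤ T := by linarith
  have hℓ1 : 1 / 2 ≤ ℓ := by
    have h1 : Real.log 2 ≤ ℓ := by
      rw [hℓ]
      exact Real.log_le_log (by norm_num) hT2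
    linarith
  have hℓ0 : 0 < ℓ := by linarith
  have hℓT : ℓ ≤ T := by
    rw [hℓ]
    exact (Real.log_le_sub_one_of_pos hT0).trans (by linarith)
  have hexpl : Real.exp ℓ = T := by rw [hℓ, Real.exp_log hT0]
  have hLK : 0 ≤ L / K := by positivity
  have hLKL : L / K ≤ L := by
    rw [div_le_iff₀ hK0]
    nlinarith
  have hu1 : 69 / 100 ≤ u := by
    have h1 : Real.log 2 ≤ u := by
      rw [hu]
      exact Real.log_le_log (by norm_num) (by linarith)
    linarith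
  have hu0 : 0 < u := by linarith
  have huT : u ≤ T := by
    refine le_trans ?_ hℓT
    rw [hu, hℓ]
    exact Real.log_le_log (by linarith) (by linarith)
  have hexpu : Real.exp u = 2 + L / K := by rw [hu, Real.exp_log (by linarith)]
  -- the number of scales
  obtain ⟨w, hw⟩ : ∃ w : ℕ, w = ⌈2 * (1 + L / K)⌉₊ := ⟨_, rfl⟩
  have hw1 : 2 * (1 + L / K) ≤ w := by
    rw [hw]
    exact Nat.le_ceil _
  have hw2 : (w : ℝ) ≤ 2 * Real.exp u := by
    have h1 := (Nat.ceil_lt_add_one (by positivity : (0 : ℝ) ≤ 2 * (1 + L / K))).le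
    rw [← hw] at h1
    rw [hexpu]
    linarith
  have hw0 : w ≠ 0 := by
    intro h
    rw [h] at hw1
    push_cast at hw1
    linarith
  obtain ⟨J, hJdef⟩ : ∃ J : ℕ, J = Nat.log 2 w + 1 := ⟨_, rfl⟩
  have hJ0 : 0 < J := by omega
  have hJr : (0 : ℝ) < J := by exact_mod_cast hJ0
  have hJ1 : (1 : ℝ) ≤ J := by exact_mod_cast hJ0
  have hJpow : 2 * (L + K) ≤ K * 2 ^ J := by
    have h1 : w < 2 ^ J := by
      rw [hJdef]
      exact Nat.lt_pow_succ_log_self (by norm_num) _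
    have h2 : (w : ℝ) ≤ 2 ^ J := by exact_mod_cast h1.le
    have h3 : K * (2 * (1 + L / K)) ≤ K * 2 ^ J :=
      mul_le_mul_of_nonneg_left (hw1.trans h2) hK0.le
    have h4 : K * (2 * (1 + L / K)) = 2 * (L + K) := by
      field_simp
      ring
    linarith
  have hJu : (J : ℝ) ≤ 5 * u := by
    have h1 : 2 ^ (Nat.log 2 w) ≤ w := Nat.pow_log_le_self 2 hw0
    have h2 : ((2 : ℝ)) ^ (Nat.log 2 w) ≤ w := by exact_mod_cast h1
    have h3 := Real.log_le_log (by positivity) (h2.trans hw2)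
    rw [Real.log_pow, Real.log_mul (by norm_num) (Real.exp_pos _).ne', Real.log_exp] at h3
    have h4 : (J : ℝ) = (Nat.log 2 w : ℝ) + 1 := by
      rw [hJdef]
      push_cast
      ring
    rw [h4]
    by_contra h
    push Not at h
    have h5 : (5 * u - 1) * Real.log 2 < (Nat.log 2 w : ℝ) * Real.log 2 :=
      mul_lt_mul_of_pos_right (by linarith) (by linarith)
    nlinarith
  have hJT : (J : ℝ) ≤ 5 * T := by linarith
  obtain ⟨m, hm⟩ : ∃ m : ℕ, m = ⌈2 * ℓ⌉₊ := ⟨_, rfl⟩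
  have hm1 : 2 * ℓ ≤ m := by
    rw [hm]
    exact Nat.le_ceil _
  have hm2 : (m : ℝ) ≤ 4 * ℓ := by
    have h1 := (Nat.ceil_lt_add_one (by linarith : (0 : ℝ) ≤ 2 * ℓ)).le
    rw [← hm] at h1
    linarith
  have hTm : T ≤ 2 ^ m := by
    have h1 : (2 : ℝ) ^ m = Real.exp (m * Real.log 2) := by
      rw [← Real.exp_log (by norm_num : (0 : ℝ) < 2), ← Real.exp_nat_mul, Real.exp_log (by norm_num)]
    rw [h1, ← hexpl]
    refine Real.exp_le_exp.2 ?_
    have h2 : 2 * ℓ * (1 / 2) ≤ m * Real.log 2 := by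
      refine mul_le_mul hm1 (by linarith) (by norm_num) (Nat.cast_nonneg _)
    linarith
  -- the size of the noise
  obtain ⟨X, hX⟩ : ∃ X : ℝ, X = L ^ 2 * u ^ 2 := ⟨_, rfl⟩
  have hL2 : 1 / 4 ≤ L ^ 2 := by nlinarith
  have hu2 : 47 / 100 ≤ u ^ 2 := by nlinarith
  have hXlow : 1 / 10 ≤ X := by
    rw [hX]
    calc (1 : ℝ) / 10 ≤ 1 / 4 * (47 / 100) := by norm_num
      _ ≤ L ^ 2 * u ^ 2 := mul_le_mul hL2 hu2 (by norm_num) (by positivity)
  have hX0 : 0 < X := by linarith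
  have hXT : X ≤ T ^ 4 := by
    rw [hX]
    have h1 : L ^ 2 ≤ T ^ 2 := pow_le_pow_left₀ hL0.le hLT 2
    have h2 : u ^ 2 ≤ T ^ 2 := pow_le_pow_left₀ hu0.le huT 2
    calc L ^ 2 * u ^ 2 ≤ T ^ 2 * T ^ 2 := mul_le_mul h1 h2 (by positivity) (by positivity)
      _ = T ^ 4 := by ring
  obtain ⟨M, hM⟩ : ∃ M : ℝ, M = 50000000000 * (X * ℓ) := ⟨_, rfl⟩
  have hXl : 1 / 20 ≤ X * ℓ := by
    calc (1 : ℝ) / 20 = 1 / 10 * (1 / 2) := by norm_num
      _ ≤ X * ℓ := mul_le_mul hXlow hℓ1 (by norm_num) hX0.le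
  have hM1 : 1 ≤ M := by linarith
  have hM0 : 0 < M := by linarith
  have hMT : M ≤ 50000000000 * T ^ 5 := by
    rw [hM]
    have h1 : X * ℓ ≤ T ^ 4 * T := mul_le_mul hXT hℓT hℓ0.le (by positivity)
    have h2 : T ^ 4 * T = T ^ 5 := by ring
    rw [h2] at h1
    exact mul_le_mul_of_nonneg_left h1 (by norm_num)
  have hT5 : 32 ≤ T ^ 5 := by
    have := pow_le_pow_left₀ (by norm_num : (0 : ℝ) ≤ 2) hT2 5
    norm_num at this
    linarith
  have hTT5 : T ≤ T ^ 5 := by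
    calc T = T * 1 := by ring
      _ ≤ T * T ^ 4 := by
        refine mul_le_mul_of_nonneg_left ?_ hT0.le
        exact one_le_pow₀ (by linarith)
      _ = T ^ 5 := by ring
  obtain ⟨q, hq⟩ : ∃ q : ℕ, q = ⌈300000000000 * T ^ 5⌉₊ := ⟨_, rfl⟩
  have hq1 : 300000000000 * T ^ 5 ≤ q := by
    rw [hq]
    exact Nat.le_ceil _
  have hq2 : (q : ℝ) ≤ 400000000000 * T ^ 5 := by
    have h1 := (Nat.ceil_lt_add_one (by positivity : (0 : ℝ) ≤ 300000000000 * T ^ 5)).le
    rw [← hq] at h1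
    linarith
  have hqr0 : (0 : ℝ) < q := by linarith
  have hqn2 : 2 ≤ q := by
    have h1 : (2 : ℝ) ≤ q := by linarith
    exact_mod_cast h1
  have hTq : T ≤ q := by linarith
  have hlq : ℓ ≤ Real.log q := by
    rw [hℓ]
    exact Real.log_le_log hT0 hTq
  have hlq0 : 0 < Real.log q := by linarith
  have hqM : 6 * M ≤ q * Real.log q := by
    have h0 : X ≤ T ^ 5 := by
      refine hXT.trans ?_
      calc T ^ 4 = T ^ 4 * 1 := by ring
        _ ≤ T ^ 4 * T := mul_le_mul_of_nonneg_left (by linarith) (by positivity)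
        _ = T ^ 5 := by ring
    have h1 : 300000000000 * X * ℓ ≤ q * Real.log q := by
      refine mul_le_mul ?_ hlq hℓ0.le hqr0.le
      linarith
    rw [hM]
    linarith
  obtain ⟨E, hE⟩ : ∃ E : ℝ, E = 64 * 257 * M * (q : ℝ) ^ 4 := ⟨_, rfl⟩
  have hE1 : 1 ≤ E := by
    rw [hE]
    have h1 : (1 : ℝ) ≤ (q : ℝ) ^ 4 := one_le_pow₀ (by linarith)
    have h2 : (1 : ℝ) * 1 ≤ 64 * 257 * M * (q : ℝ) ^ 4 :=
      mul_le_mul (by linarith) h1 (by norm_num) (by positivity)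
    linarith
  have hE0 : 0 < E := by linarith
  have hEle : E ≤ 10 ^ 62 * T ^ 25 := by
    rw [hE]
    have h1 : (q : ℝ) ^ 4 ≤ (400000000000 * T ^ 5) ^ 4 := pow_le_pow_left₀ hqr0.le hq2 4
    have h2 : 64 * 257 * M * (q : ℝ) ^ 4
        ≤ 64 * 257 * (50000000000 * T ^ 5) * (400000000000 * T ^ 5) ^ 4 := by
      refine mul_le_mul (by linarith) h1 (by positivity) (by positivity)
    refine h2.trans ?_
    have h3 : 64 * 257 * (50000000000 * T ^ 5) * (400000000000 * T ^ 5) ^ 4 =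
        (64 * 257 * 50000000000 * 400000000000 ^ 4) * T ^ 25 := by ring
    rw [h3]
    have h4 : 0 ≤ T ^ 25 := by positivity
    have h5 : (64 * 257 * 50000000000 * 400000000000 ^ 4 : ℝ) ≤ 10 ^ 62 := by norm_num
    exact mul_le_mul_of_nonneg_right h5 h4
  obtain ⟨n, hn⟩ : ∃ n : ℕ, n = ⌈(L + (5 * T + 9)) * E⌉₊ := ⟨_, rfl⟩
  have hn1 : (L + (5 * T + 9)) * E ≤ n := by
    rw [hn]
    exact Nat.le_ceil _
  have hn2 : (n : ℝ) ≤ 12 * (T * E) := by
    have h1 := (Nat.ceil_lt_add_one (by positivity : (0 : ℝ) ≤ (L + (5 * T + 9)) * E)).le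
    rw [← hn] at h1
    have h2 : (L + (5 * T + 9)) * E ≤ 11 * T * E := mul_le_mul_of_nonneg_right (by linarith) hE0.le
    have h3 : 1 * 1 ≤ T * E := mul_le_mul (by linarith) hE1 (by norm_num) hT0.le
    linarith
  have hni : 384 * (J : ℝ) * n ≤ 2 ^ (400 * m) := by
    have h1 : (2 : ℝ) ^ (400 * m) = (2 ^ m) ^ 400 := by
      rw [← pow_mul, mul_comm]
    rw [h1]
    have h2 : T ^ 400 ≤ ((2 : ℝ) ^ m) ^ 400 := pow_le_pow_left₀ hT0.le hTm 400
    refine le_trans ?_ h2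
    have h3 : T ^ 400 = T ^ 373 * T ^ 27 := by rw [← pow_add]
    rw [h3]
    have h4 : (2 : ℝ) ^ 373 ≤ T ^ 373 := pow_le_pow_left₀ (by norm_num) hT2 373
    have h5 : (2 : ℝ) ^ 373 * T ^ 27 ≤ T ^ 373 * T ^ 27 := mul_le_mul_of_nonneg_right h4 (by positivity)
    refine le_trans ?_ h5
    have h6 : T * E ≤ T * (10 ^ 62 * T ^ 25) := mul_le_mul_of_nonneg_left hEle hT0.le
    have h7 : T * (10 ^ 62 * T ^ 25) = 10 ^ 62 * T ^ 26 := by ring
    rw [h7] at h6
    have h8 : 384 * (J : ℝ) * n ≤ 384 * (5 * T) * (12 * (10 ^ 62 * T ^ 26)) := by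
      refine mul_le_mul (by linarith) (by linarith) (Nat.cast_nonneg _) (by positivity)
    have h9 : 384 * (5 * T) * (12 * (10 ^ 62 * T ^ 26)) = (384 * 5 * 12 * 10 ^ 62) * T ^ 27 := by ring
    rw [h9] at h8
    refine h8.trans ?_
    have h10 : (384 * 5 * 12 * 10 ^ 62 : ℝ) ≤ 2 ^ 373 := by
      have h11 : (384 * 5 * 12 * 10 ^ 62 : ℝ) ≤ 2 ^ 230 := by norm_num
      exact h11.trans (pow_le_pow_right₀ (by norm_num) (by norm_num))
    exact mul_le_mul_of_nonneg_right h10 (by positivity)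
  have hη0 : 0 < 1 / E := by positivity
  have hη1 : 1 / E ≤ 1 := by
    rw [div_le_one hE0]
    exact hE1
  have hηE : 1 / E * (64 * 257 * M * (q : ℝ) ^ 4) ≤ 1 := by
    rw [← hE, one_div_mul_cancel hE0.ne']
  have hKn : (N : ℝ) / A.card * (1 - 1 / E) ^ n ≤ 1 / (384 * J) / 8 := by
    have h2 : (N : ℝ) / A.card = Real.exp L := by rw [hL, Real.exp_log (by positivity)]
    have h3 : 1 - 1 / E ≤ Real.exp (-(1 / E)) := by
      have := Real.add_one_le_exp (-(1 / E))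
      linarith
    have h4 : (1 - 1 / E) ^ n ≤ Real.exp (-(1 / E)) ^ n := pow_le_pow_left₀ (by linarith) h3 n
    rw [← Real.exp_nat_mul] at h4
    have h5 : (n : ℝ) * -(1 / E) ≤ -(L + (5 * T + 9)) := by
      have h6 : (L + (5 * T + 9)) ≤ n * (1 / E) := by
        rw [mul_one_div, le_div_iff₀ hE0]
        exact hn1
      linarith
    have h7 : (1 - 1 / E) ^ n ≤ Real.exp (-(L + (5 * T + 9))) := h4.trans (Real.exp_le_exp.2 h5)
    rw [h2]
    have h8 : Real.exp L * (1 - 1 / E) ^ n ≤ Real.exp (-(5 * T + 9)) := by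
      calc Real.exp L * (1 - 1 / E) ^ n ≤ Real.exp L * Real.exp (-(L + (5 * T + 9))) :=
            mul_le_mul_of_nonneg_left h7 (Real.exp_pos _).le
        _ = Real.exp (-(5 * T + 9)) := by
            rw [← Real.exp_add]
            congr 1
            ring
    refine h8.trans ?_
    have h9 : 384 * (J : ℝ) * 8 ≤ Real.exp (5 * T + 9) := by
      rw [Real.exp_add, mul_comm]
      have e1 : (3072 : ℝ) ≤ Real.exp 9 := by
        have h2 : (2.7182818283 : ℝ) < Real.exp 1 := Real.exp_one_gt_d9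
        have h3 : Real.exp 9 = (Real.exp 1) ^ 9 := by
          rw [← Real.exp_nat_mul]
          norm_num
        rw [h3]
        calc (3072 : ℝ) ≤ (2.7182818283 : ℝ) ^ 9 := by norm_num
          _ ≤ _ := pow_le_pow_left₀ (by norm_num) h2.le 9
      have e2 : (J : ℝ) ≤ Real.exp (5 * T) := by
        have := Real.add_one_le_exp (5 * T)
        linarith
      have e3 : (J : ℝ) * 3072 ≤ Real.exp (5 * T) * Real.exp 9 :=
        mul_le_mul e2 e1 (by norm_num) (Real.exp_pos _).le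
      linarith
    rw [Real.exp_neg, div_div, one_div]
    exact inv_anti₀ (by positivity) h9
  obtain ⟨σ, hσ, hdef, hincl⟩ := pop_noise A hA L K hL0 hL hK J hJ0 hJpow n (400 * m) (1 / E)
    hη0.le hη1 hKn hni
  have hdefM : Real.log N - entT σ ≤ M := by
    refine hdef.trans ?_
    rw [hM, hX]
    have hJ2 : (J : ℝ) ^ 2 ≤ 25 * u ^ 2 := by
      have := pow_le_pow_left₀ hJr.le hJu 2
      have e : (5 * u) ^ 2 = 25 * u ^ 2 := by ring
      linarith
    have hJJ : (J : ℝ) ≤ J ^ 2 := by nlinarith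
    have h1 : L * (768 * J * L) + 2 * ((400 * m : ℕ) : ℝ) * (768 * J * L) ^ 2
        = L ^ 2 * (768 * J + 471859200 * m * (J : ℝ) ^ 2) := by
      push_cast
      ring
    rw [h1]
    have h2 : 768 * (J : ℝ) + 471859200 * m * (J : ℝ) ^ 2 ≤ 50000000000 * (u ^ 2 * ℓ) := by
      have e1 : (m : ℝ) * (J : ℝ) ^ 2 ≤ 4 * ℓ * (25 * u ^ 2) :=
        mul_le_mul hm2 hJ2 (by positivity) (by positivity)
      have e2 : 768 * (J : ℝ) ≤ 768 * (25 * u ^ 2) := by linarith
      have e3 : u ^ 2 * 1 ≤ u ^ 2 * (2 * ℓ) := mul_le_mul_of_nonneg_left (by linarith) (by positivity)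
      nlinarith
    have h3 := mul_le_mul_of_nonneg_left h2 (by positivity : (0 : ℝ) ≤ L ^ 2)
    linarith
  obtain ⟨Γ, hΓ, hincl2⟩ := gl σ hσ M hM1 hdefM hqn2 hqM (1 / E) hη0.le hηE
  refine ⟨Γ, 1 / (4 * (q : ℝ)), by positivity, ?_, ?_, ?_⟩
  · refine hΓ.trans ?_
    have h1 : 15 * M / Real.log q ≤ 750000000000 * X := by
      rw [div_le_iff₀ hlq0]
      have h2 : 750000000000 * X * ℓ ≤ 750000000000 * X * Real.log q :=
        mul_le_mul_of_nonneg_left hlq (by positivity)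
      have h3 : 15 * M = 750000000000 * X * ℓ := by
        rw [hM]
        ring
      rw [h3]
      exact h2
    rw [← hu, ← hX]
    linarith
  · rw [← hT, div_div, div_le_div_iff₀ (by positivity) (by positivity)]
    linarith
  · intro x hx
    refine hincl x ?_
    intro γ hγ
    refine (hincl2 x hx γ hγ).trans ?_
    rw [div_div]
    refine one_div_le_one_div_of_le (by positivity) ?_
    linarith

/-- Popular version: all radii. -/
theorem pop_final :
    ∃ C : ℝ, 0 < C ∧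
      ∀ N : ℕ, 0 < N → ∀ A : Finset (ZMod N), A.Nonempty →
        (A.card : ℝ) / (N : ℝ) ≤ 1 / 2 →
        ∀ L : ℝ, L = Real.log ((N : ℝ) / (A.card : ℝ)) → ∀ K : ℝ, 17 ≤ K →
          ∀ ε : ℝ, 0 < ε → ε ≤ 1 / 8 →
            ∃ Γ : Finset (ZMod N),
              (Γ.card : ℝ) ≤ C * (L ^ 2 * Real.log (2 + L / K) ^ 2 *
                (1 + Real.log (L + 2) / Real.log (1 / ε))) ∧
              ∀ x : ZMod N,
                (∀ γ ∈ Γ,
                  |((γ * x).val : ℝ) / (N : ℝ) - ((round (((γ * x).val : ℝ) / (N : ℝ)) : ℤ) : ℝ)|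
                    ≤ ε) →
                Real.exp (-K) * ((A.card : ℝ) ^ 4 / N) ≤ rep4 A x := by
  obtain ⟨C, hC, c, hc, hmain⟩ := pop_base
  refine ⟨4 * C * (2 + 4 * (2 * |Real.log (1 / c)| + 6)), by positivity, ?_⟩
  intro N hN0 A hA hdens L hL K hK ε hε hε8
  have : NeZero N := ⟨hN0.ne'⟩
  obtain ⟨Γ, ρ, hρ, hΓ, hρ2, hincl⟩ := hmain N hN0 A hA hdens L hL (K - 1) (by linarith)
  have hN : (0 : ℝ) < N := by exact_mod_cast hN0
  have hAc : (0 : ℝ) < A.card := by exact_mod_cast hA.card_pos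
  have hlog2 := Real.log_two_gt_d9
  have hLlow : 1 / 2 ≤ L := by
    have h1 : (2 : ℝ) ≤ (N : ℝ) / A.card := by
      rw [le_div_iff₀ hAc]
      rw [div_le_iff₀ hN] at hdens
      linarith
    have h2 := Real.log_le_log (by norm_num) h1
    rw [hL]; linarith
  have hL0 : 0 < L := by linarith
  have hK0 : 0 < K := by linarith
  -- comparison of the logarithms for `K - 1` and `K`
  have hlogK : Real.log (2 + L / (K - 1)) ^ 2 ≤ 4 * Real.log (2 + L / K) ^ 2 := by
    have h0 : 0 ≤ L / K := by positivity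
    have h1 : L / (K - 1) ≤ 2 * (L / K) := by
      have e : 2 * (L / K) = (2 * L) / K := by ring
      rw [e, div_le_div_iff₀ (by linarith) hK0]
      nlinarith
    have h2 : 2 + L / (K - 1) ≤ (2 + L / K) ^ 2 := by nlinarith
    have h3 : 0 ≤ L / (K - 1) := div_nonneg hL0.le (by linarith)
    have h4 := Real.log_le_log (by linarith) h2
    rw [Real.log_pow] at h4
    have h5 : 0 ≤ Real.log (2 + L / (K - 1)) := Real.log_nonneg (by linarith)
    have h6 := pow_le_pow_left₀ h5 h4 2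
    push_cast at h6
    linarith
  have hΓ1 : (Γ.card : ℝ) ≤ 4 * C * (L ^ 2 * Real.log (2 + L / K) ^ 2) := by
    refine hΓ.trans ?_
    have h1 : L ^ 2 * Real.log (2 + L / (K - 1)) ^ 2 ≤ L ^ 2 * (4 * Real.log (2 + L / K) ^ 2) :=
      mul_le_mul_of_nonneg_left hlogK (by positivity)
    have h2 := mul_le_mul_of_nonneg_left h1 hC.le
    linarith
  set ℓ : ℝ := Real.log (L + 2) with hℓ
  have hℓ1 : 1 / 2 ≤ ℓ := by
    have h1 : Real.log 2 ≤ ℓ := Real.log_le_log (by norm_num) (by linarith)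
    linarith
  have hℓ0 : 0 < ℓ := by linarith
  -- the radius `ρ` cut at 1
  set ρ' : ℝ := min ρ 1 with hρ'
  have hρ'0 : 0 < ρ' := lt_min hρ one_pos
  have hρ'1 : ρ' ≤ 1 := min_le_right _ _
  obtain ⟨m, s, hm, hmε, hms, hs⟩ := Pool.Agent.H33.QB.params ε ρ' hε hε8 hρ'0 hρ'1
  obtain ⟨Γ', hΓ', hB⟩ := Pool.Agent.H33.QB.multi Γ m s ε ρ' hm hmε hms
  have hlogε : 0 < Real.log (1 / ε) := by
    apply Real.log_pos
    rw [lt_div_iff₀ hε]; linarith
  have hX : 0 < (L + 2) ^ 5 := by positivity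
  -- bound for log (1 / ρ')
  have hlogρ : Real.log (1 / ρ') ≤ (2 * |Real.log (1 / c)| + 6) * ℓ := by
    have h2 : 0 ≤ |Real.log (1 / c)| := abs_nonneg _
    rcases le_total ρ 1 with h | h
    · rw [hρ', min_eq_left h]
      have h1 : 1 / ρ ≤ (1 / c) * (L + 2) ^ 5 := by
        rw [div_le_iff₀ hρ]
        rw [div_le_iff₀ hX] at hρ2
        calc (1 : ℝ) = 1 / c * c := by field_simp
          _ ≤ 1 / c * (ρ * (L + 2) ^ 5) := by gcongr
          _ = _ := by ring
      have h3 : Real.log (1 / ρ) ≤ Real.log (1 / c) + 5 * ℓ := by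
        have := Real.log_le_log (by positivity) h1
        rwa [Real.log_mul (by positivity) (by positivity), Real.log_pow, Nat.cast_ofNat] at this
      have h6 : Real.log (1 / c) ≤ 2 * |Real.log (1 / c)| * ℓ := by
        have := le_abs_self (Real.log (1 / c))
        nlinarith
      nlinarith
    · rw [hρ', min_eq_right h]
      simp only [div_one, Real.log_one]
      positivity
  refine ⟨Γ', ?_, ?_⟩
  · have h1 : (Γ'.card : ℝ) ≤ ((s : ℝ) + 1) * Γ.card := by exact_mod_cast hΓ'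
    have hG0 : (0 : ℝ) ≤ Γ.card := Nat.cast_nonneg _
    have h2 : ((s : ℝ) + 1) ≤ (2 + 4 * (2 * |Real.log (1 / c)| + 6)) *
        (1 + ℓ / Real.log (1 / ε)) := by
      refine hs.trans ?_
      have h3 : Real.log (1 / ρ') / Real.log (1 / ε) ≤
          (2 * |Real.log (1 / c)| + 6) * ℓ / Real.log (1 / ε) := by gcongr
      have h4 : 0 ≤ ℓ / Real.log (1 / ε) := by positivity
      have h5 : 0 ≤ |Real.log (1 / c)| := abs_nonneg _
      rw [mul_div_assoc] at h3
      nlinarith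
    calc (Γ'.card : ℝ) ≤ ((s : ℝ) + 1) * Γ.card := h1
      _ ≤ ((2 + 4 * (2 * |Real.log (1 / c)| + 6)) * (1 + ℓ / Real.log (1 / ε))) *
          (4 * C * (L ^ 2 * Real.log (2 + L / K) ^ 2)) := by
        apply mul_le_mul h2 hΓ1 hG0
        have h4 : 0 ≤ ℓ / Real.log (1 / ε) := by positivity
        have h5 : 0 ≤ |Real.log (1 / c)| := abs_nonneg _
        positivity
      _ = _ := by ring
  · intro x hx
    have h1 := hincl x (fun γ hγ => (hB x hx γ hγ).trans (min_le_left _ _))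
    have h2 : -(K - 1 + 1) = -K := by ring
    rw [h2] at h1
    have h3 : (N : ℝ) * ((rep4 A x : ℝ) / (A.card : ℝ) ^ 4) * ((A.card : ℝ) ^ 4 / N) = rep4 A x := by
      field_simp
    rw [← h3]
    exact mul_le_mul_of_nonneg_right h1 (by positivity)

end Pool.Agent.H18.POP
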